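import Pool.Agent.H73.PHS.Stmts

/-!
Board phs (MP_e1af46), row CBC, helper46: the complement of a ball is connected.
-/

set_option autoImplicit false

open Set Filter Topology MeasureTheory Metric

namespace Pool.PHS

theorem cbc_rank (n : ℕ) (hn : 1 ≤ n) : 1 < Module.rank ℝ (Cn n) := by
  have h1 : Module.finrank ℝ (Cn n) = n * 2 := by
    rw [Module.finrank_pi_fintype]
    simp [Complex.finrank_real_complex]
  rw [← Module.finrank_eq_rank, h1]
  have h2 : 1 < n * 2 := by omega
  exact_mod_cast h2

theorem cbc_thm : CBCStmt := by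
  intro n hn R
  by_cases hR : R < 0
  · have : {z : Cn n | R < ‖z‖} = univ := by
      ext z
      simp only [mem_setOf_eq, mem_univ, iff_true]
      exact hR.trans_le (norm_nonneg z)
    rw [this]
    exact isPreconnected_univ
  · rw [not_lt] at hR
    have h1 : {z : Cn n | R < ‖z‖} =
        (fun x : ℝ × Cn n => x.1 • x.2) '' (Ioi R ×ˢ sphere (0 : Cn n) 1) := by
      ext z
      simp only [mem_setOf_eq, mem_image, mem_prod, mem_Ioi, mem_sphere_iff_norm, sub_zero,
        Prod.exists]
      constructor
      · intro hz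
        have hz0 : 0 < ‖z‖ := hR.trans_lt hz
        refine ⟨‖z‖, ‖z‖⁻¹ • z, ⟨hz, ?_⟩, ?_⟩
        · rw [norm_smul, norm_inv, norm_norm, inv_mul_cancel₀ hz0.ne']
        · rw [smul_smul, mul_inv_cancel₀ hz0.ne', one_smul]
      · rintro ⟨r, x, ⟨hr, hx⟩, rfl⟩
        rw [norm_smul, hx, mul_one, Real.norm_of_nonneg (hR.trans hr.le)]
        exact hr
    rw [h1]
    refine IsPreconnected.image ?_ _ ?_
    · exact isPreconnected_Ioi.prod (isPreconnected_sphere (cbc_rank n hn) 0 1)
    · exact (continuous_fst.smul continuous_snd).continuousOn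

end Pool.PHS
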